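import Pool.Agent.Helper50.CT.Goals

/-!
# Packet CT-LPC: geodesic spaces are locally path connected
-/

set_option autoImplicit false

namespace Pool.Agent.Helper61.CT

open Pool.Agent.Helper50.CT

theorem joinedIn_ball {X : Type} [MetricSpace X] (hG : Geod X) (x y : X) (r : ℝ)
    (hy : dist x y < r) : JoinedIn (Metric.ball x r) x y := by
  obtain ⟨c, h0, h1, hd⟩ := hG x y
  set L : ℝ := dist x y with hL
  have hL0 : 0 ≤ L := dist_nonneg
  have hmem : ∀ s : unitInterval, L * (s : ℝ) ∈ Set.Icc (0 : ℝ) L := by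
    intro s
    refine ⟨mul_nonneg hL0 s.2.1, ?_⟩
    have h := mul_le_mul_of_nonneg_left s.2.2 hL0
    simpa using h
  have hcont : Continuous (fun s : unitInterval => c (L * (s : ℝ))) := by
    rw [Metric.continuous_iff]
    intro b ε hε
    refine ⟨ε / (L + 1), by positivity, ?_⟩
    intro a hab
    rw [hd _ (hmem a) _ (hmem b)]
    have h2 : |L * (a : ℝ) - L * (b : ℝ)| = L * dist a b := by
      rw [← mul_sub, abs_mul, abs_of_nonneg hL0, Subtype.dist_eq, Real.dist_eq]
    rw [h2]
    have h3 : dist a b * (L + 1) < ε := by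
      have := (lt_div_iff₀ (by positivity : (0 : ℝ) < L + 1)).1 hab
      exact this
    have h4 : 0 ≤ dist a b := dist_nonneg
    nlinarith
  refine ⟨⟨⟨fun s => c (L * (s : ℝ)), hcont⟩, ?_, ?_⟩, ?_⟩
  · simp [h0]
  · simp [h1]
  · intro s
    change c (L * (s : ℝ)) ∈ Metric.ball x r
    rw [Metric.mem_ball, dist_comm]
    have h5 := hd 0 ⟨le_refl 0, hL0⟩ (L * (s : ℝ)) (hmem s)
    rw [h0] at h5
    rw [h5]
    have h6 := (hmem s).1
    have h7 := (hmem s).2
    rw [zero_sub, abs_neg, abs_of_nonneg h6]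
    linarith

theorem goalLPC : StmtLPC := by
  intro X _ hG
  refine ⟨?_, fun x y => ?_⟩
  · refine LocallyPathConnectedSpace.of_bases (fun x => Metric.nhds_basis_ball) ?_
    intro x r hr
    refine ⟨x, Metric.mem_ball_self hr, ?_⟩
    intro y hy
    exact joinedIn_ball hG x y r (by rwa [Metric.mem_ball, dist_comm] at hy)
  · exact (joinedIn_ball hG x y (dist x y + 1) (by linarith)).joined

end Pool.Agent.Helper61.CT
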